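import Mathlib

/-!
MODULE 4 of the order-independence barrier (MP_e6fa8b_nt): Fejér means of the square wave.
-/

namespace Pool.Agent.Helper8.Order

open Polynomial Finset Filter Topology

/-- odd trigonometric polynomials -/
noncomputable def ap (a : ℕ → ℕ → ℝ) (M : ℕ) (x : ℝ) : ℝ :=
  ∑ j ∈ range (M + 1), a M j * Real.sin ((2 * j + 1) * (Real.pi * x))

namespace Approx

/-- Fejér kernel (times `n`) -/
noncomputable def K (n : ℕ) (θ : ℝ) : ℝ :=
  n + 2 * ∑ k ∈ range n, ((n : ℝ) - (k + 1)) * Real.cos ((k + 1) * θ)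

lemma K_eq (n : ℕ) (θ : ℝ) :
    K n θ = Complex.normSq (∑ j ∈ range n, Complex.exp (θ * Complex.I) ^ j) := by
  induction n with
  | zero => simp [K]
  | succ n ih =>
    rw [Finset.sum_range_succ, Complex.normSq_add, ← ih]
    have h1 : Complex.normSq (Complex.exp (θ * Complex.I) ^ n) = 1 := by
      rw [map_pow, Complex.normSq_eq_norm_sq, Complex.norm_exp_ofReal_mul_I]; simp
    rw [h1]
    have h2 : ((∑ j ∈ range n, Complex.exp (θ * Complex.I) ^ j) *
        (starRingEnd ℂ) (Complex.exp (θ * Complex.I) ^ n)).re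
        = ∑ k ∈ range n, Real.cos ((k + 1) * θ) := by
      rw [Finset.sum_mul, Complex.re_sum, ← Finset.sum_range_reflect]
      refine Finset.sum_congr rfl fun j hj => ?_
      have hj' : j < n := Finset.mem_range.1 hj
      rw [map_pow, ← Complex.exp_conj, ← Complex.exp_nat_mul, ← Complex.exp_nat_mul,
        ← Complex.exp_add]
      have : ((n - 1 - j : ℕ) : ℂ) * (θ * Complex.I) +
          (n : ℂ) * (starRingEnd ℂ) (θ * Complex.I) = ((-((j + 1) * θ) : ℝ) : ℂ) * Complex.I := by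
        rw [Nat.cast_sub (by omega), Nat.cast_sub (by omega)]
        simp only [map_mul, Complex.conj_ofReal, Complex.conj_I]
        push_cast
        ring
      rw [this, Complex.exp_ofReal_mul_I_re, Real.cos_neg]
    rw [h2]
    unfold K
    rw [Finset.sum_range_succ]
    have h3 : ∑ k ∈ range n, (((n + 1 : ℕ) : ℝ) - (k + 1)) * Real.cos ((k + 1) * θ)
        = ∑ k ∈ range n, ((n : ℝ) - (k + 1)) * Real.cos ((k + 1) * θ)
          + ∑ k ∈ range n, Real.cos ((k + 1) * θ) := by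
      rw [← Finset.sum_add_distrib]
      refine Finset.sum_congr rfl fun k _ => ?_
      push_cast; ring
    rw [h3]
    push_cast
    ring

lemma K_nonneg (n : ℕ) (θ : ℝ) : 0 ≤ K n θ := by
  rw [K_eq]; exact Complex.normSq_nonneg _

lemma K_le (n : ℕ) (θ : ℝ) : K n θ * (1 - Real.cos θ) ≤ 2 := by
  set z : ℂ := Complex.exp (θ * Complex.I) with hz
  have hz1 : Complex.normSq z = 1 := by
    rw [Complex.normSq_eq_norm_sq, hz, Complex.norm_exp_ofReal_mul_I]; simp
  have hre : z.re = Real.cos θ := by rw [hz, Complex.exp_ofReal_mul_I_re]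
  have h1 : Complex.normSq (z - 1) = 2 * (1 - Real.cos θ) := by
    rw [Complex.normSq_sub]
    simp [hz1, hre]; ring
  have hzn : ‖z ^ n‖ = 1 := by
    rw [norm_pow, hz, Complex.norm_exp_ofReal_mul_I, one_pow]
  have h2 : Complex.normSq (z ^ n - 1) ≤ 4 := by
    rw [Complex.normSq_eq_norm_sq]
    have : ‖z ^ n - 1‖ ≤ 2 := by
      calc ‖z ^ n - 1‖ ≤ ‖z ^ n‖ + ‖(1 : ℂ)‖ := norm_sub_le _ _
        _ = 2 := by rw [hzn]; norm_num
    have h0 := norm_nonneg (z ^ n - 1)
    nlinarith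
  have h3 : K n θ * Complex.normSq (z - 1) = Complex.normSq (z ^ n - 1) := by
    rw [K_eq, ← map_mul, ← hz, geom_sum_mul]
  rw [h1] at h3
  nlinarith

/-- antiderivative of the Fejér kernel -/
noncomputable def S (n : ℕ) (t : ℝ) : ℝ :=
  n * t + 2 * ∑ k ∈ range n, ((n : ℝ) - (k + 1)) *
    (Real.sin ((k + 1) * (Real.pi * t)) / ((k + 1) * Real.pi))

lemma hasDerivAt_S (n : ℕ) (t : ℝ) : HasDerivAt (S n) (K n (Real.pi * t)) t := by
  unfold S K
  have hpi := Real.pi_ne_zero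
  have h1 : HasDerivAt (fun t : ℝ => (n : ℝ) * t) ((n : ℝ) * 1) t := (hasDerivAt_id t).const_mul _
  have h2 : ∀ k ∈ range n, HasDerivAt (fun t : ℝ => ((n : ℝ) - (k + 1)) *
      (Real.sin ((k + 1) * (Real.pi * t)) / ((k + 1) * Real.pi)))
      (((n : ℝ) - (k + 1)) * Real.cos ((k + 1) * (Real.pi * t))) t := by
    intro k _
    have hk : ((k : ℝ) + 1) ≠ 0 := by positivity
    have h3 : HasDerivAt (fun t : ℝ => ((k : ℝ) + 1) * (Real.pi * t))
        (((k : ℝ) + 1) * (Real.pi * 1)) t := ((hasDerivAt_id t).const_mul _).const_mul _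
    have h4 := ((h3.sin).div_const (((k : ℝ) + 1) * Real.pi)).const_mul ((n : ℝ) - (k + 1))
    refine h4.congr_deriv ?_
    field_simp
  have h5 := (h1.fun_add ((HasDerivAt.fun_sum h2).const_mul 2))
  rw [mul_one] at h5
  exact h5

lemma S_mono (n : ℕ) : Monotone (S n) := by
  apply monotone_of_deriv_nonneg
  · exact fun t => (hasDerivAt_S n t).differentiableAt
  · intro t
    rw [(hasDerivAt_S n t).deriv]
    exact K_nonneg _ _

lemma S_add_two (n : ℕ) (t : ℝ) : S n (t + 2) = S n t + 2 * n := by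
  unfold S
  have : ∀ k ∈ range n, ((n : ℝ) - (k + 1)) *
      (Real.sin ((k + 1) * (Real.pi * (t + 2))) / ((k + 1) * Real.pi))
      = ((n : ℝ) - (k + 1)) * (Real.sin ((k + 1) * (Real.pi * t)) / ((k + 1) * Real.pi)) := by
    intro k _
    have h : ((k : ℝ) + 1) * (Real.pi * (t + 2))
        = ((k : ℝ) + 1) * (Real.pi * t) + ((k + 1 : ℕ) : ℝ) * (2 * Real.pi) := by
      push_cast; ring
    rw [h, Real.sin_add_nat_mul_two_pi]
  rw [Finset.sum_congr rfl this]
  ring

/-- the coefficients -/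
noncomputable def a (M j : ℕ) : ℝ :=
  if j ≤ M then 4 / Real.pi * ((2 * M + 2 - (2 * j + 1)) / ((2 * M + 2) * (2 * j + 1))) else 0

lemma a_nonneg (M j : ℕ) : 0 ≤ a M j := by
  unfold a
  split_ifs with h
  · have h1 : (j : ℝ) ≤ M := by exact_mod_cast h
    have := Real.pi_pos
    have h2 : (0 : ℝ) ≤ 2 * M + 2 - (2 * j + 1) := by linarith
    positivity
  · exact le_rfl

lemma sum_odd_even (f : ℕ → ℝ) (M : ℕ) :
    ∑ k ∈ range (2 * M + 2), f k = ∑ j ∈ range (M + 1), (f (2 * j) + f (2 * j + 1)) := by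
  induction M with
  | zero => simp [Finset.sum_range_succ]
  | succ M ih =>
    rw [Finset.sum_range_succ (n := M + 1), ← ih, show 2 * (M + 1) + 2 = (2 * M + 2) + 1 + 1 by ring,
      Finset.sum_range_succ, Finset.sum_range_succ]
    have : 2 * (M + 1) = 2 * M + 2 := by ring
    rw [this]; ring

lemma ap_eq (M : ℕ) (x : ℝ) :
    ap a M x = (S (2 * M + 2) x - S (2 * M + 2) (x - 1)) / (2 * M + 2) - 1 := by
  have hn : (2 * (M : ℝ) + 2) ≠ 0 := by positivity
  have hpi := Real.pi_ne_zero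
  rw [eq_sub_iff_add_eq, eq_div_iff hn]
  unfold S ap
  rw [sum_odd_even, sum_odd_even]
  have key : ∀ j ∈ range (M + 1), a M j * Real.sin ((2 * j + 1) * (Real.pi * x)) * (2 * M + 2)
      = 2 * ((((2 * M + 2 : ℕ) : ℝ) - ((2 * j : ℕ) + 1)) *
          (Real.sin (((2 * j : ℕ) + 1) * (Real.pi * x)) / (((2 * j : ℕ) + 1) * Real.pi)) +
        (((2 * M + 2 : ℕ) : ℝ) - ((2 * j + 1 : ℕ) + 1)) *
          (Real.sin (((2 * j + 1 : ℕ) + 1) * (Real.pi * x)) / (((2 * j + 1 : ℕ) + 1) * Real.pi)))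
        - 2 * ((((2 * M + 2 : ℕ) : ℝ) - ((2 * j : ℕ) + 1)) *
          (Real.sin (((2 * j : ℕ) + 1) * (Real.pi * (x - 1))) / (((2 * j : ℕ) + 1) * Real.pi)) +
        (((2 * M + 2 : ℕ) : ℝ) - ((2 * j + 1 : ℕ) + 1)) *
          (Real.sin (((2 * j + 1 : ℕ) + 1) * (Real.pi * (x - 1))) /
            (((2 * j + 1 : ℕ) + 1) * Real.pi))) := by
    intro j hj
    have hj' : j ≤ M := by have := Finset.mem_range.1 hj; omega
    have e1 : Real.sin (((2 * j : ℕ) + 1) * (Real.pi * (x - 1)))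
        = - Real.sin ((2 * j + 1) * (Real.pi * x)) := by
      have h : (((2 * j : ℕ) : ℝ) + 1) * (Real.pi * (x - 1))
          = (2 * j + 1) * (Real.pi * x) - Real.pi - (j : ℕ) * (2 * Real.pi) := by
        push_cast; ring
      rw [h, Real.sin_sub_nat_mul_two_pi, Real.sin_sub_pi]
    have e2 : Real.sin (((2 * j + 1 : ℕ) + 1) * (Real.pi * (x - 1)))
        = Real.sin (((2 * j + 1 : ℕ) + 1) * (Real.pi * x)) := by
      have h : (((2 * j + 1 : ℕ) : ℝ) + 1) * (Real.pi * (x - 1))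
          = (((2 * j + 1 : ℕ) : ℝ) + 1) * (Real.pi * x) - ((j + 1 : ℕ) : ℝ) * (2 * Real.pi) := by
        push_cast; ring
      rw [h, Real.sin_sub_nat_mul_two_pi]
    rw [e1, e2]
    unfold a
    rw [if_pos hj']
    have hk : (2 * (j : ℝ) + 1) ≠ 0 := by positivity
    have hk2 : (2 * (j : ℝ) + 1 + 1) ≠ 0 := by positivity
    push_cast
    field_simp
    ring
  rw [add_mul, Finset.sum_mul, Finset.sum_congr rfl key, Finset.sum_sub_distrib,
    ← Finset.mul_sum, ← Finset.mul_sum]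
  push_cast
  ring

lemma ap_abs (M : ℕ) (x : ℝ) : |ap a M x| ≤ 1 := by
  have hn : (0 : ℝ) < 2 * (M : ℝ) + 2 := by positivity
  rw [ap_eq]
  have h1 : S (2 * M + 2) (x - 1) ≤ S (2 * M + 2) x := S_mono _ (by linarith)
  have h2 : S (2 * M + 2) (x - 2) ≤ S (2 * M + 2) (x - 1) := S_mono _ (by linarith)
  have h3 := S_add_two (2 * M + 2) (x - 2)
  rw [sub_add_cancel] at h3
  push_cast at h3
  rw [abs_le]
  constructor
  · have : 0 ≤ (S (2 * M + 2) x - S (2 * M + 2) (x - 1)) / (2 * M + 2) :=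
      div_nonneg (by linarith) hn.le
    linarith
  · have : (S (2 * M + 2) x - S (2 * M + 2) (x - 1)) / (2 * M + 2) ≤ 2 := by
      rw [div_le_iff₀ hn]; linarith
    linarith

lemma ap_add_one (M : ℕ) (x : ℝ) : ap a M (x + 1) = - ap a M x := by
  unfold ap
  rw [← Finset.sum_neg_distrib]
  refine Finset.sum_congr rfl fun j _ => ?_
  have h : (2 * (j : ℝ) + 1) * (Real.pi * (x + 1))
      = (2 * j + 1) * (Real.pi * x) + Real.pi + (j : ℕ) * (2 * Real.pi) := by ring
  rw [h, Real.sin_add_nat_mul_two_pi, Real.sin_add_pi]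
  ring

lemma ap_add_int (M : ℕ) (x : ℝ) (k : ℤ) : ap a M (x + k) = (-1) ^ k * ap a M x := by
  induction k using Int.induction_on with
  | zero => simp
  | succ k ih =>
    have : x + ((k + 1 : ℤ) : ℝ) = (x + (k : ℤ)) + 1 := by push_cast; ring
    rw [this, ap_add_one, ih, zpow_add₀ (by norm_num)]
    simp
  | pred k ih =>
    have h1 := ap_add_one M (x + ((-(k : ℤ) - 1 : ℤ) : ℝ))
    have : x + ((-(k : ℤ) - 1 : ℤ) : ℝ) + 1 = x + ((-(k : ℤ) : ℤ) : ℝ) := by push_cast; ring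
    rw [this, ih] at h1
    have h2 : (-1 : ℝ) ^ (-(k : ℤ) - 1) = - (-1) ^ (-(k : ℤ)) := by
      rw [zpow_sub₀ (by norm_num), zpow_one]; ring
    rw [h2]
    linarith

lemma cos_le (η t : ℝ) (hη : 0 < η) (h1 : -2 + η ≤ t) (h2 : t ≤ -η) :
    Real.cos (Real.pi * t) ≤ Real.cos (Real.pi * η) := by
  have hpi := Real.pi_pos
  rcases le_total (-1) t with h | h
  · rw [← Real.cos_neg]
    apply Real.cos_le_cos_of_nonneg_of_le_pi (by positivity) (by nlinarith) (by nlinarith)
  · have : Real.cos (Real.pi * t) = Real.cos (Real.pi * (t + 2)) := by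
      rw [show Real.pi * (t + 2) = Real.pi * t + 2 * Real.pi by ring, Real.cos_add_two_pi]
    rw [this]
    apply Real.cos_le_cos_of_nonneg_of_le_pi (by positivity) (by nlinarith) (by nlinarith)

lemma one_sub_ap (M : ℕ) (η x : ℝ) (hη : 0 < η) (h0 : η ≤ x) (h1 : x ≤ 1 - η) :
    1 - ap a M x ≤ 2 / (1 - Real.cos (Real.pi * η)) / (2 * M + 2) := by
  have hn : (0 : ℝ) < 2 * (M : ℝ) + 2 := by positivity
  have hpi := Real.pi_pos
  have hc : 0 < 1 - Real.cos (Real.pi * η) := by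
    have : Real.cos (Real.pi * η) < Real.cos 0 := by
      apply Real.cos_lt_cos_of_nonneg_of_le_pi le_rfl (by nlinarith) (by positivity)
    rw [Real.cos_zero] at this; linarith
  rw [ap_eq, le_div_iff₀ hn]
  have h3 := S_add_two (2 * M + 2) (x - 2)
  rw [sub_add_cancel] at h3
  push_cast at h3
  have h4 : (1 - ((S (2 * M + 2) x - S (2 * M + 2) (x - 1)) / (2 * ↑M + 2) - 1)) * (2 * ↑M + 2)
      = S (2 * M + 2) (x - 1) - S (2 * M + 2) (x - 2) := by
    field_simp
    linarith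
  rw [h4]
  have h5 : S (2 * M + 2) (x - 1) - S (2 * M + 2) (x - 2)
      ≤ 2 / (1 - Real.cos (Real.pi * η)) * ((x - 1) - (x - 2)) := by
    apply (convex_Icc (x - 2) (x - 1)).image_sub_le_mul_sub_of_deriv_le
    · exact fun t _ => (hasDerivAt_S _ t).continuousAt.continuousWithinAt
    · exact fun t _ => (hasDerivAt_S _ t).differentiableAt.differentiableWithinAt
    · intro t ht
      rw [interior_Icc] at ht
      rw [(hasDerivAt_S _ t).deriv, le_div_iff₀ hc]
      refine le_trans ?_ (K_le (2 * M + 2) (Real.pi * t))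
      apply mul_le_mul_of_nonneg_left _ (K_nonneg _ _)
      have := cos_le η t hη (by linarith [ht.1]) (by linarith [ht.2])
      linarith
    · exact Set.left_mem_Icc.2 (by linarith)
    · exact Set.right_mem_Icc.2 (by linarith)
    · linarith
  linarith

end Approx

open Approx in
lemma approximants : ∃ a : ℕ → ℕ → ℝ, (∀ M j, 0 ≤ a M j) ∧ (∀ M x, |ap a M x| ≤ 1) ∧
    (∀ η : ℝ, 0 < η → ∀ ε : ℝ, 0 < ε → ∃ M0 : ℕ, ∀ M, M0 ≤ M → ∀ x : ℝ,
      (∀ k : ℤ, η < |x - k|) → |(-1 : ℝ) ^ ⌊x⌋ - ap a M x| ≤ ε) ∧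
    (∀ j : ℕ, ∃ c : ℝ, 0 < c ∧ ∃ M0 : ℕ, ∀ M, M0 ≤ M → c ≤ a M j) := by
  refine ⟨a, a_nonneg, ap_abs, ?_, ?_⟩
  · intro η hη ε hε
    by_cases hη2 : 1 / 2 < η
    · refine ⟨0, fun M _ x hx => ?_⟩
      exfalso
      have h1 := hx (round x)
      have h2 := abs_sub_round x
      linarith
    push Not at hη2
    have hpi := Real.pi_pos
    have hc : 0 < 1 - Real.cos (Real.pi * η) := by
      have : Real.cos (Real.pi * η) < Real.cos 0 := by
        apply Real.cos_lt_cos_of_nonneg_of_le_pi le_rfl (by nlinarith) (by positivity)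
      rw [Real.cos_zero] at this; linarith
    set C : ℝ := 2 / (1 - Real.cos (Real.pi * η)) with hC
    have hCpos : 0 < C := by positivity
    obtain ⟨M0, hM0⟩ := exists_nat_gt (C / ε)
    refine ⟨M0, fun M hM x hx => ?_⟩
    have e1 : ap a M x = (-1) ^ ⌊x⌋ * ap a M (Int.fract x) := by
      rw [← ap_add_int, Int.fract_add_floor]
    rw [e1]
    have e2 : (-1 : ℝ) ^ ⌊x⌋ - (-1) ^ ⌊x⌋ * ap a M (Int.fract x)
        = (-1) ^ ⌊x⌋ * (1 - ap a M (Int.fract x)) := by ring
    rw [e2, abs_mul, abs_zpow, abs_neg, abs_one, one_zpow, one_mul]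
    have hab := abs_le.1 (ap_abs M (Int.fract x))
    rw [abs_of_nonneg (by linarith [hab.2])]
    have hf0 : η ≤ Int.fract x := by
      have := hx ⌊x⌋
      rw [← Int.fract, abs_of_nonneg (Int.fract_nonneg x)] at this
      exact this.le
    have hf1 : Int.fract x ≤ 1 - η := by
      have h1 := hx (⌊x⌋ + 1)
      have h2 := Int.fract_lt_one x
      have h3 : x - ((⌊x⌋ + 1 : ℤ) : ℝ) = - (1 - Int.fract x) := by
        rw [Int.fract]; push_cast; ring
      rw [h3, abs_neg, abs_of_nonneg (by linarith)] at h1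
      linarith
    refine (one_sub_ap M η _ hη hf0 hf1).trans ?_
    rw [← hC, div_le_iff₀ (by positivity)]
    have hM' : (M0 : ℝ) ≤ M := by exact_mod_cast hM
    rw [div_lt_iff₀ hε] at hM0
    nlinarith
  · intro j
    refine ⟨2 / Real.pi / (2 * j + 1), by have := Real.pi_pos; positivity, 2 * j, fun M hM => ?_⟩
    unfold a
    rw [if_pos (by omega)]
    have hM' : 2 * (j : ℝ) ≤ M := by exact_mod_cast hM
    have hpi := Real.pi_pos
    have : (4 : ℝ) / Real.pi * ((2 * M + 2 - (2 * j + 1)) / ((2 * M + 2) * (2 * j + 1)))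
        - 2 / Real.pi / (2 * j + 1)
        = 2 / Real.pi / (2 * j + 1) * ((M - 2 * j) / (M + 1)) := by
      have h1 : (2 * (M : ℝ) + 2) ≠ 0 := by positivity
      have h2 : ((M : ℝ) + 1) ≠ 0 := by positivity
      have h3 : (2 * (j : ℝ) + 1) ≠ 0 := by positivity
      field_simp
      ring
    have h4 : 0 ≤ 2 / Real.pi / (2 * (j : ℝ) + 1) * ((M - 2 * j) / (M + 1)) := by
      have : (0 : ℝ) ≤ M - 2 * j := by linarith
      positivity
    linarith

end Pool.Agent.Helper8.Order
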